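import Pool.Agent.MP_4aaa5f_an.T23

set_option autoImplicit false

/-!
# MP_4aaa5f_an: arbitrary open sets and the Hessian in the sense of Alexandrov
-/

open MeasureTheory Set Filter Topology Asymptotics

namespace Pool.Agent.Results.MP_4aaa5f_an.OpenSetsAlexandrov

/-- The plane. -/
abbrev E2 : Type := EuclideanSpace ℝ (Fin 2)

/-- The Lebesgue measure in the plane. -/
noncomputable def area (B : Set E2) : ENNReal := volume B

/-- The subdifferential at `x` of `u` as a function on `U`. -/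
def Subdiff (U : Set E2) (u : E2 → ℝ) (x : E2) : Set E2 :=
  {p : E2 | ∀ y ∈ U, u x + inner ℝ p (y - x) ≤ u y}

/-- `u` is convex on `U` and its Monge-Ampère measure on `U` lies between `l` and `1 / l` times
Lebesgue measure: for every measurable `B ⊆ U` the measure of the union of the subdifferentials of
`u` (as a function on `U`) at the points of `B` is between `l |B|` and `|B| / l`. -/
def IsSol (l : ℝ) (U : Set E2) (u : E2 → ℝ) : Prop :=
  ConvexOn ℝ U u ∧ ∀ B : Set E2, MeasurableSet B → B ⊆ U →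
    ENNReal.ofReal l * area B ≤ area (⋃ x ∈ B, Subdiff U u x) ∧
    area (⋃ x ∈ B, Subdiff U u x) ≤ ENNReal.ofReal l⁻¹ * area B

/-- The symmetric matrix `A` is the Hessian of `u` at `x` in the sense of Alexandrov:
`u (x + h) = u x + p · h + h · A h / 2 + o(|h|²)` for some `p`. -/
def IsHess (u : E2 → ℝ) (x : E2) (A : Matrix (Fin 2) (Fin 2) ℝ) : Prop :=
  A.IsSymm ∧ ∃ p : E2, Tendsto (fun h : E2 =>
    (u (x + h) - u x - (∑ i, p i * h i) - (∑ i, ∑ j, A i j * h i * h j) / 2) / ‖h‖ ^ 2)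
      (𝓝 0) (𝓝 0)

/-- the same with a bilinear form -/
def IsHessB (u : E2 → ℝ) (x : E2) (A : E2 →L[ℝ] E2 →L[ℝ] ℝ) : Prop :=
  (∀ v w, A v w = A w v) ∧ ∃ L : E2 →L[ℝ] ℝ,
    (fun h : E2 => u (x + h) - u x - L h - A h h / 2) =o[𝓝 0] fun h : E2 => ‖h‖ ^ 2

/-- from the matrix to the bilinear form -/
theorem hess_bilin {u : E2 → ℝ} {x : E2} {A : Matrix (Fin 2) (Fin 2) ℝ} (hA : IsHess u x A)
    {s : ℝ} (hs : 0 < s) (hsA : s ^ 2 < ∑ i, ∑ j, A i j ^ 2) :
    ∃ B : E2 →L[ℝ] E2 →L[ℝ] ℝ, IsHessB u x B ∧ s / 2 < ‖B‖ := by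
  obtain ⟨hsym, p, hp⟩ := hA
  set B : E2 →L[ℝ] E2 →L[ℝ] ℝ := ∑ i, ∑ j, A i j •
    (EuclideanSpace.proj i : E2 →L[ℝ] ℝ).smulRight (EuclideanSpace.proj j : E2 →L[ℝ] ℝ) with hB
  set L : E2 →L[ℝ] ℝ := ∑ i, p i • (EuclideanSpace.proj i : E2 →L[ℝ] ℝ) with hL
  have hBv : ∀ v w : E2, B v w = ∑ i, ∑ j, A i j * v i * w j := by
    intro v w
    simp [hB, Fin.sum_univ_two]
    ring
  have hLv : ∀ v : E2, L v = ∑ i, p i * v i := by
    intro v
    simp [hL, Fin.sum_univ_two]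
  refine ⟨B, ⟨?_, L, ?_⟩, ?_⟩
  · intro v w
    have h01 : A 0 1 = A 1 0 := hsym.apply 1 0
    rw [hBv, hBv]
    simp only [Fin.sum_univ_two]
    rw [h01]
    ring
  · have h1 : ∀ h : E2, ‖h‖ ^ 2 = 0 → u (x + h) - u x - L h - B h h / 2 = 0 := by
      intro h hh
      have h0 : h = 0 := norm_eq_zero.1 (pow_eq_zero_iff two_ne_zero |>.1 hh)
      subst h0
      simp
    rw [isLittleO_iff_tendsto h1]
    refine hp.congr fun h => ?_
    rw [hBv, hLv]
  · have hij : ∀ i j, A i j ^ 2 ≤ ‖B‖ ^ 2 := by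
      intro i j
      have h1 := B.le_opNorm₂ (EuclideanSpace.single i (1 : ℝ)) (EuclideanSpace.single j (1 : ℝ))
      have h2 : B (EuclideanSpace.single i (1 : ℝ)) (EuclideanSpace.single j (1 : ℝ)) = A i j := by
        rw [hBv]
        rw [Finset.sum_eq_single i, Finset.sum_eq_single j]
        · simp
        · intro b _ hb
          simp [hb]
        · simp
        · intro b _ hb
          simp [hb]
        · simp
      rw [h2, EuclideanSpace.norm_single, EuclideanSpace.norm_single, norm_one, mul_one, mul_one,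
        Real.norm_eq_abs] at h1
      rw [← sq_abs (A i j)]
      exact pow_le_pow_left₀ (abs_nonneg _) h1 2
    have h3 : s ^ 2 < (2 * ‖B‖) ^ 2 := by
      refine hsA.trans_le ?_
      simp only [Fin.sum_univ_two]
      nlinarith [hij 0 0, hij 0 1, hij 1 0, hij 1 1]
    have h4 := lt_of_pow_lt_pow_left₀ 2 (by positivity) h3
    linarith

/-- the gradient inequality -/
theorem grad_le {U : Set E2} {u : E2 → ℝ} (hu : ConvexOn ℝ U u) {x y : E2} (hx : x ∈ U)
    (hy : y ∈ U) (hd : DifferentiableAt ℝ u x) : fderiv ℝ u x (y - x) ≤ u y - u x := by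
  have hline : ConvexOn ℝ ((fun t : ℝ => x + t • (y - x)) ⁻¹' U)
      (fun t : ℝ => u (x + t • (y - x))) := by
    refine ⟨?_, ?_⟩
    · intro a ha b hb p q hp hq hpq
      have h := hu.1 ha hb hp hq hpq
      have e : p • (x + a • (y - x)) + q • (x + b • (y - x)) =
          x + (p • a + q • b) • (y - x) := by
        have h1 : p • x + q • x = x := by rw [← add_smul, hpq, one_smul]
        calc p • (x + a • (y - x)) + q • (x + b • (y - x)) =
            (p • x + q • x) + (p • a + q • b) • (y - x) := by module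
          _ = _ := by rw [h1]
      show x + (p • a + q • b) • (y - x) ∈ U
      rw [← e]
      exact h
    · intro a ha b hb p q hp hq hpq
      have h := hu.2 ha hb hp hq hpq
      have e : p • (x + a • (y - x)) + q • (x + b • (y - x)) =
          x + (p • a + q • b) • (y - x) := by
        have h1 : p • x + q • x = x := by rw [← add_smul, hpq, one_smul]
        calc p • (x + a • (y - x)) + q • (x + b • (y - x)) =
            (p • x + q • x) + (p • a + q • b) • (y - x) := by module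
          _ = _ := by rw [h1]
      show u (x + (p • a + q • b) • (y - x)) ≤ _
      rw [← e]
      exact h
  have hder : HasDerivAt (fun t : ℝ => u (x + t • (y - x))) (fderiv ℝ u x (y - x)) 0 := by
    have h1 : HasDerivAt (fun t : ℝ => x + t • (y - x)) (y - x) 0 := by
      have := ((hasDerivAt_id (0 : ℝ)).smul_const (y - x)).const_add x
      simpa using this
    have h2 : HasFDerivAt u (fderiv ℝ u x) (x + (0 : ℝ) • (y - x)) := by
      simpa using hd.hasFDerivAt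
    exact h2.comp_hasDerivAt 0 h1
  have h0 : (0 : ℝ) ∈ (fun t : ℝ => x + t • (y - x)) ⁻¹' U := by
    show x + (0 : ℝ) • (y - x) ∈ U
    simpa using hx
  have h1 : (1 : ℝ) ∈ (fun t : ℝ => x + t • (y - x)) ⁻¹' U := by
    show x + (1 : ℝ) • (y - x) ∈ U
    simpa using hy
  have h := hline.le_slope_of_hasDerivAt h0 h1 one_pos hder
  rw [slope_def_field] at h
  simpa using h

/-- A differentiable convex function has a differentiable gradient at each point where it has a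
Hessian in the sense of Alexandrov. -/
theorem hess_fderiv {U : Set E2} {u : E2 → ℝ} (hU : IsOpen U) (hu : ConvexOn ℝ U u)
    (hd : ∀ x ∈ U, DifferentiableAt ℝ u x) {x : E2} (hx : x ∈ U) {A : E2 →L[ℝ] E2 →L[ℝ] ℝ}
    (hA : IsHessB u x A) : HasFDerivAt (fderiv ℝ u) A x := by
  obtain ⟨hs, L, hL⟩ := hA
  set R : E2 → ℝ := fun h => u (x + h) - u x - L h - A h h / 2 with hR
  have hsq : (fun h : E2 => ‖h‖ ^ 2) =o[𝓝 0] fun h : E2 => h := by
    have h1 : (fun h : E2 => ‖h‖ ^ 2) =o[𝓝 0] fun h : E2 => ‖h‖ ^ 1 :=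
      isLittleO_norm_pow_norm_pow (by norm_num)
    simp only [pow_one] at h1
    exact h1.of_norm_right
  have hfd : fderiv ℝ u x = L := by
    have h1 : HasFDerivAt u L x := by
      rw [hasFDerivAt_iff_isLittleO_nhds_zero]
      have h2 : (fun h : E2 => A h h / 2) =O[𝓝 0] fun h : E2 => ‖h‖ ^ 2 := by
        refine IsBigO.of_bound (‖A‖ / 2) (Eventually.of_forall fun h => ?_)
        have := A.le_opNorm₂ h h
        rw [norm_div, Real.norm_eq_abs, Real.norm_eq_abs, abs_of_pos (two_pos : (0:ℝ) < 2),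
          Real.norm_eq_abs, abs_of_nonneg (sq_nonneg ‖h‖)]
        rw [Real.norm_eq_abs] at this
        nlinarith
      have h3 := (hL.trans hsq).add (h2.trans_isLittleO hsq)
      refine h3.congr_left fun h => ?_
      simp only [hR]
      ring
    exact h1.fderiv
  rw [hasFDerivAt_iff_isLittleO_nhds_zero, isLittleO_iff]
  intro c hc
  -- choose ε
  set M : ℝ := 5 + ‖A‖ / 2 with hM
  have hM0 : 0 < M := by positivity
  set ε : ℝ := min 1 (c / M) with hε
  have hε0 : 0 < ε := lt_min one_pos (div_pos hc hM0)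
  have hε1 : ε ≤ 1 := min_le_left _ _
  have hεc : M * ε ≤ c := by
    have := min_le_right 1 (c / M)
    rw [← hε, le_div_iff₀ hM0] at this
    linarith
  have hη : 0 < ε ^ 2 := by positivity
  have hev := isLittleO_iff.1 hL hη
  have hUx : ∀ᶠ h : E2 in 𝓝 0, x + h ∈ U := by
    have h1 : Tendsto (fun h : E2 => x + h) (𝓝 0) (𝓝 x) := by
      have : Tendsto (fun h : E2 => x + h) (𝓝 0) (𝓝 (x + 0)) :=
        tendsto_const_nhds.add tendsto_id
      simpa using this
    exact h1.eventually (hU.mem_nhds hx)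
  obtain ⟨δ, hδ, hball⟩ := Metric.eventually_nhds_iff.1 (hev.and hUx)
  have hb : ∀ h : E2, ‖h‖ < δ → |R h| ≤ ε ^ 2 * ‖h‖ ^ 2 ∧ x + h ∈ U := by
    intro h hh
    have h1 := hball (show dist h 0 < δ by rwa [dist_zero_right])
    refine ⟨?_, h1.2⟩
    have h2 := h1.1
    rw [Real.norm_eq_abs, Real.norm_eq_abs, abs_of_nonneg (sq_nonneg ‖h‖)] at h2
    exact h2
  have hfin : ∀ h : E2, ‖h‖ < δ / 2 → ∀ v : E2,
      (fderiv ℝ u (x + h) - fderiv ℝ u x - A h) v ≤ c * ‖h‖ * ‖v‖ := by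
    intro h hh v
    by_cases h0 : h = 0
    · subst h0
      simp
    by_cases hv : v = 0
    · subst hv
      simp
    have hn : 0 < ‖h‖ := norm_pos_iff.2 h0
    have hnv : 0 < ‖v‖ := norm_pos_iff.2 hv
    set t : ℝ := ε * ‖h‖ / ‖v‖ with ht
    have ht0 : 0 < t := by positivity
    have htv : ‖t • v‖ = ε * ‖h‖ := by
      rw [norm_smul, Real.norm_eq_abs, abs_of_pos ht0, ht, div_mul_cancel₀ _ hnv.ne']
    have hle : ‖h + t • v‖ ≤ 2 * ‖h‖ := by
      refine (norm_add_le _ _).trans ?_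
      rw [htv]
      nlinarith
    obtain ⟨r1, m1⟩ := hb h (by linarith)
    obtain ⟨r2, m2⟩ := hb (h + t • v) (by linarith)
    have hg := grad_le hu m1 m2 (hd _ m1)
    have e1 : x + (h + t • v) - (x + h) = t • v := by abel
    rw [e1, map_smul, smul_eq_mul] at hg
    have e2 : u (x + (h + t • v)) - u (x + h) =
        R (h + t • v) - R h + t * L v + t * A h v + t ^ 2 * A v v / 2 := by
      simp only [hR, map_add, map_smul, add_apply, smul_apply, smul_eq_mul]
      rw [hs v h]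
      ring
    have h3 : |A v v| ≤ ‖A‖ * ‖v‖ * ‖v‖ := A.le_opNorm₂ v v
    have h4 : t ^ 2 * A v v / 2 ≤ ‖A‖ / 2 * (ε * ‖h‖) ^ 2 := by
      have h5 : A v v ≤ ‖A‖ * ‖v‖ * ‖v‖ := (le_abs_self _).trans h3
      have h6 : t ^ 2 * A v v ≤ t ^ 2 * (‖A‖ * ‖v‖ * ‖v‖) :=
        mul_le_mul_of_nonneg_left h5 (sq_nonneg t)
      have h7 : t ^ 2 * (‖A‖ * ‖v‖ * ‖v‖) = ‖A‖ * (ε * ‖h‖) ^ 2 := by
        rw [ht]
        field_simp
      linarith
    have h8 : R (h + t • v) ≤ ε ^ 2 * (4 * ‖h‖ ^ 2) := by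
      refine (le_abs_self _).trans (r2.trans ?_)
      have : ‖h + t • v‖ ^ 2 ≤ 4 * ‖h‖ ^ 2 := by
        nlinarith [norm_nonneg (h + t • v), hle, norm_nonneg h]
      exact mul_le_mul_of_nonneg_left this (sq_nonneg ε)
    have h9 : -R h ≤ ε ^ 2 * ‖h‖ ^ 2 := (neg_le_abs _).trans r1
    have h10 : t * (fderiv ℝ u (x + h) - fderiv ℝ u x - A h) v ≤ M * ε ^ 2 * ‖h‖ ^ 2 := by
      rw [hfd]
      simp only [sub_apply]
      rw [hM]
      nlinarith
    have h11 : M * ε ^ 2 * ‖h‖ ^ 2 = t * (M * ε * ‖h‖ * ‖v‖) := by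
      rw [ht]
      field_simp
    rw [h11] at h10
    have h12 := le_of_mul_le_mul_left h10 ht0
    refine h12.trans ?_
    exact mul_le_mul_of_nonneg_right (mul_le_mul_of_nonneg_right hεc hn.le) hnv.le
  rw [Metric.eventually_nhds_iff]
  refine ⟨δ / 2, by positivity, fun h hh => ?_⟩
  rw [dist_zero_right] at hh
  refine ContinuousLinearMap.opNorm_le_bound _ (by positivity) fun v => ?_
  rw [Real.norm_eq_abs, abs_le]
  refine ⟨?_, hfin h hh v⟩
  have := hfin h hh (-v)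
  rw [map_neg, norm_neg] at this
  linarith

/-- the estimate, with bilinear forms -/
theorem aux (Ω : Set E2) (u : E2 → ℝ) (l : ℝ) (hΩ : IsOpen Ω) (hl0 : 0 < l) (hl1 : l < 1)
    (hu : ∀ (c : E2) (r : ℝ), Metric.ball c r ⊆ Ω → IsSol l (Metric.ball c r) u)
    (K : Set E2) (hK : IsCompact K) (hKΩ : K ⊆ Ω) :
    ∃ C : ℝ, ∀ s : ℝ, 0 < s →
      ENNReal.ofReal (s ^ ((1 + l ^ 2) / (1 - l ^ 2))) *
        volume {x ∈ K | (∃ A, IsHessB u x A ∧ s < ‖A‖) ∨ s < ‖fderiv ℝ (fderiv ℝ u) x‖} ≤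
          ENNReal.ofReal C := by
  -- balls
  have hball : ∀ x : E2, ∃ r : ℝ, 0 < r ∧ (x ∈ K → Metric.ball x r ⊆ Ω) := by
    intro x
    by_cases hx : x ∈ K
    · obtain ⟨r, hr, h⟩ := Metric.isOpen_iff.1 hΩ x (hKΩ hx)
      exact ⟨r, hr, fun _ => h⟩
    · exact ⟨1, one_pos, fun h => absurd h hx⟩
  choose r hr hrΩ using hball
  obtain ⟨T, hTK, hT⟩ := hK.elim_nhds_subcover (fun x => Metric.ball x (r x / 2))
    (fun x _ => Metric.ball_mem_nhds x (half_pos (hr x)))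
  -- the estimate on the pieces
  have hpiece : ∀ x ∈ T, ∃ C : ℝ, ∀ s : ℝ, 0 < s →
      ENNReal.ofReal (s ^ ((1 + l ^ 2) / (1 - l ^ 2))) *
        volume {y ∈ K ∩ Metric.closedBall x (r x / 2) | s < ‖fderiv ℝ (fderiv ℝ u) y‖} ≤
          ENNReal.ofReal C := by
    intro x hx
    have hs := hu x (r x) (hrΩ x (hTK x hx))
    refine Pool.Agent.MP_4aaa5f_an.final (Metric.ball x (r x)) u l Metric.isOpen_ball
      (convex_ball x (r x)) hs.1 hl0 hl1 hs.2 (K ∩ Metric.closedBall x (r x / 2))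
      (hK.inter_right Metric.isClosed_closedBall) ?_
    rintro y ⟨_, hy⟩
    exact Metric.closedBall_subset_ball (half_lt_self (hr x)) hy
  have hdiff : ∀ x ∈ T, ∀ y ∈ Metric.ball x (r x), DifferentiableAt ℝ u y := by
    intro x hx y hy
    have hs := hu x (r x) (hrΩ x (hTK x hx))
    have MA1 := Pool.Agent.MP_4aaa5f_an.fr_A.MA Metric.isOpen_ball (convex_ball x (r x)) hs.1 hs.2
    obtain ⟨P1, Q1, N1⟩ := Pool.Agent.MP_4aaa5f_an.MA.nice hl0 MA1
    have := (Pool.Agent.MP_4aaa5f_an.nice_fderiv N1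
      (z := Pool.Agent.MP_4aaa5f_an.frA.symm y) (by simpa using hy)).1
    simpa using this
  have hpiece' : ∀ x : E2, ∃ C : ℝ, x ∈ T → ∀ s : ℝ, 0 < s →
      ENNReal.ofReal (s ^ ((1 + l ^ 2) / (1 - l ^ 2))) *
        volume {y ∈ K ∩ Metric.closedBall x (r x / 2) | s < ‖fderiv ℝ (fderiv ℝ u) y‖} ≤
          ENNReal.ofReal C := by
    intro x
    by_cases hx : x ∈ T
    · obtain ⟨C, hC⟩ := hpiece x hx
      exact ⟨C, fun _ => hC⟩
    · exact ⟨0, fun h => absurd h hx⟩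
  choose C hC using hpiece'
  refine ⟨∑ x ∈ T, max (C x) 0, fun s hs => ?_⟩
  have hsub : {x ∈ K | (∃ A, IsHessB u x A ∧ s < ‖A‖) ∨ s < ‖fderiv ℝ (fderiv ℝ u) x‖} ⊆
      ⋃ x ∈ T, {y ∈ K ∩ Metric.closedBall x (r x / 2) | s < ‖fderiv ℝ (fderiv ℝ u) y‖} := by
    rintro y ⟨hy, hor⟩
    obtain ⟨x, hx, hyx⟩ := mem_iUnion₂.1 (hT hy)
    refine mem_iUnion₂.2 ⟨x, hx, ⟨hy, Metric.ball_subset_closedBall hyx⟩, ?_⟩
    rcases hor with ⟨A, hA, hsA⟩ | h
    · have hyb : y ∈ Metric.ball x (r x) :=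
        Metric.ball_subset_ball (half_le_self (hr x).le) hyx
      have h1 := hess_fderiv Metric.isOpen_ball (hu x (r x) (hrΩ x (hTK x hx))).1
        (hdiff x hx) hyb hA
      rw [h1.fderiv]
      exact hsA
    · exact h
  calc ENNReal.ofReal (s ^ ((1 + l ^ 2) / (1 - l ^ 2))) *
        volume {x ∈ K | (∃ A, IsHessB u x A ∧ s < ‖A‖) ∨ s < ‖fderiv ℝ (fderiv ℝ u) x‖}
      ≤ ENNReal.ofReal (s ^ ((1 + l ^ 2) / (1 - l ^ 2))) *
        ∑ x ∈ T, volume {y ∈ K ∩ Metric.closedBall x (r x / 2) |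
          s < ‖fderiv ℝ (fderiv ℝ u) y‖} := by
        gcongr
        exact (measure_mono hsub).trans (measure_biUnion_finset_le _ _)
    _ = ∑ x ∈ T, ENNReal.ofReal (s ^ ((1 + l ^ 2) / (1 - l ^ 2))) *
        volume {y ∈ K ∩ Metric.closedBall x (r x / 2) | s < ‖fderiv ℝ (fderiv ℝ u) y‖} := by
        rw [Finset.mul_sum]
    _ ≤ ∑ x ∈ T, ENNReal.ofReal (max (C x) 0) := by
        refine Finset.sum_le_sum fun x hx => (hC x hx s hs).trans ?_
        exact ENNReal.ofReal_le_ofReal (le_max_left _ _)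
    _ = ENNReal.ofReal (∑ x ∈ T, max (C x) 0) := by
        rw [ENNReal.ofReal_sum_of_nonneg fun x _ => le_max_right _ _]

/-- **Main theorem (Q1 of MP_4aaa5f_an for arbitrary open sets).** Let `0 < l < 1` and let `u` be an
Alexandrov solution of `l ≤ det D² u ≤ 1 / l` on every ball contained in the open set `Ω ⊆ ℝ²`, that
is, convex on the ball with Monge-Ampère measure between `l` and `1 / l` times Lebesgue measure. Then
for every compact `K ⊆ Ω` there is a `C` with `s ^ p · |{x ∈ K : |D² u (x)| > s}| ≤ C` for all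
`s > 0`, `p = (1 + l²) / (1 - l²)`; here `D² u (x)` is the Hessian in the sense of Alexandrov and
`|A|² = ∑ A i j ^ 2`. -/
theorem result (Ω : Set E2) (u : E2 → ℝ) (l : ℝ) (hΩ : IsOpen Ω) (hl0 : 0 < l) (hl1 : l < 1)
    (hu : ∀ (c : E2) (r : ℝ), Metric.ball c r ⊆ Ω → IsSol l (Metric.ball c r) u)
    (K : Set E2) (hK : IsCompact K) (hKΩ : K ⊆ Ω) :
    ∃ C : ℝ, ∀ s : ℝ, 0 < s →
      ENNReal.ofReal (s ^ ((1 + l ^ 2) / (1 - l ^ 2))) *
        area {x ∈ K | ∃ A, IsHess u x A ∧ s ^ 2 < ∑ i, ∑ j, A i j ^ 2} ≤ ENNReal.ofReal C := by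
  obtain ⟨C, hC⟩ := aux Ω u l hΩ hl0 hl1 hu K hK hKΩ
  set q : ℝ := (1 + l ^ 2) / (1 - l ^ 2) with hq
  refine ⟨2 ^ q * C, fun s hs => ?_⟩
  have h1 := hC (s / 2) (half_pos hs)
  have h2 : {x ∈ K | ∃ A, IsHess u x A ∧ s ^ 2 < ∑ i, ∑ j, A i j ^ 2} ⊆
      {x ∈ K | (∃ A, IsHessB u x A ∧ s / 2 < ‖A‖) ∨ s / 2 < ‖fderiv ℝ (fderiv ℝ u) x‖} := by
    rintro x ⟨hx, A, hA, hsA⟩
    exact ⟨hx, Or.inl (hess_bilin hA hs hsA)⟩
  have h3 : s ^ q = 2 ^ q * (s / 2) ^ q := by
    rw [← Real.mul_rpow zero_le_two (half_pos hs).le]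
    congr 1
    ring
  rw [h3, ENNReal.ofReal_mul (by positivity), ENNReal.ofReal_mul (by positivity), mul_assoc]
  gcongr
  refine le_trans ?_ h1
  gcongr
  exact measure_mono h2

end Pool.Agent.Results.MP_4aaa5f_an.OpenSetsAlexandrov
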